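import Pool.Agent.R624.EN.Comp

/-!
MP_a83194_lc: the set of schematic validities of the dynamic logic of entertainment is
decidable; in particular it is the set of theorems of a recursive proof system.
-/

namespace Pool.Agent.Results.MP_a83194_lc.SchematicDecidable

universe u

open R624EN

/-- `code` is a bijective numbering of the formulas, and the set of numbers of schematically
valid formulas is computable. -/
theorem result : Function.Bijective code ∧
    ComputablePred (fun n : ℕ => ∃ φ : Form, code φ = n ∧ SchemValid.{u} φ) :=
  ⟨⟨code_inj, code_surj⟩, main⟩

end Pool.Agent.Results.MP_a83194_lc.SchematicDecidable
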